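import Pool.Agent.N111.GJ.Stmt

/-!
MP_26d9ad_nt, Q1: integral points, of bounded degree, on all affine varieties with a finite
correspondence to a generic pair (a complement of generic hypersurfaces), with the exact bounds.

Let `K` be an algebraically closed field of characteristic `0`, and let `k` be a field contained in
`K`, with algebraic closure `k'` in `K`. A *generic affine pair* `X` (`GenericPair k K`, in
`Pool/Agent/N111/GJ/Def.lean`) defines the affine variety `U`, the complement of the hypersurfaces
`F b = 0`, `b ∉ C`, in the intersection of a closed subset `V` of a projective space, defined over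
`k'`, of dimension at most `m`, and of the hypersurfaces `F c = 0`, `c ∈ C`, where the ratios of the
coefficients of the forms `F a` over `K`, of degrees `d a`, to one of them are, for all `a` together,
algebraically independent over `k`. Let `X.size` be the sum of all the numbers `d a` and of the
number of elements of `C`.

Let `M` be any affine variety over `K`, with function field `L` and coordinates `u`. A *finite
correspondence* `M ← W → U` (`IsCorr X u x`, in `Pool/Agent/N111/GJ/Stmt.lean`) is given by a finite
extension `L'` of `L`, the function field of `W`, and a point `x` of `U` with coordinates in `L'` such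
that `W → M` is finite, where `W` is the closure of the graph in the product of `M` and `U`.
`FibresLE X u x r`: the fibres of `W → M` have at most `r` points. `QuasiFinite X u x`: the fibres of
`W → U` are finite. For instance, `M` can be the quotient of an affine variety `W`, quasi-finite over
`U`, by a finite group of order at most `r`, or any normal variety which is the image of such a `W`
under a finite map of degree at most `r`.

The theorem: for every ring `R` in a finitely generated algebra over `k'` (for instance a ring that is
finitely generated over the integers),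
(1) all but finitely many of the points of degree at most `e` of `M` that are integral over `R` lie on
closed subvarieties of positive dimension of `M` on which all finite correspondences with
`2 m + 2 r e ≤ size` are constant;
(2) if a correspondence with `2 m + 2 r e ≤ size` is not constant on the closed subvariety `Z` of `M`,
then the points of degree at most `e` of `Z` that are integral over `R` are not dense in `Z`;
(3) if it is quasi-finite, then `M` has only finitely many points of degree at most `e` integral over
`R`;
(4) a closed subvariety of dimension `w > 0` of `M` on which a correspondence with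
`2 m + 2 r ≤ size + w` is generically finite is of log general type; if a quasi-finite correspondence
has `2 m + 2 r ≤ size + 1` then all closed subvarieties of `M` of positive dimension are of log
general type.
Let `X` be a generic pair in the projective space of dimension `n ≥ 1` such that the complete
intersection `F c = 0`, `c ∈ C`, contains lines (for instance if `C` is empty), and `r ≥ 1`. Then
(5) all affine varieties `M` with a finite correspondence, with fibres of at most `r` points,
quasi-finite over `U`, have only finitely many integral points over every such ring `R` if and only if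
`2 n + 2 r ≤ size`;
(6) all their closed subvarieties of positive dimension are of log general type, the hypothesis of the
Lang-Vojta conjecture, if and only if `2 n + 2 r ≤ size + 1`;
(7) if `size + 2 ≤ 2 n + 2 r` then there is such a variety `M`, a normal rational curve, that is not
of log general type and has infinitely many points over a ring finitely generated over the integers.
-/

set_option autoImplicit false
set_option linter.overlappingInstances false

namespace Pool.Agent.Results.MP_26d9ad_nt.FiniteCorrespondences

open Pool.Agent.N111.GJ (GenericPair IsSub IntPts)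
open Pool.Agent.N111.GJ.FC

theorem result {k K : Type} [Field k] [Field K] [IsAlgClosed K] [CharZero K] [Algebra k K] :
    -- `M`: any affine variety over `K`, with function field `L` and coordinates `u`
    (∀ (L : Type) [Field L] [Algebra K L] (N : ℕ) (u : Fin N → L),
      IntermediateField.adjoin K (Set.range u) = ⊤ →
      -- (1) the integral points of degree at most `e`
      (∀ (e : ℕ) (R : Subring K), InFinGen k R →
        {s ∈ IntPts u e R | ¬ OnConstant k K u e s}.Finite) ∧
      -- `M ← W → U`: any finite correspondence, whose fibres over `M` have at most `r` points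
      (∀ (X : GenericPair k K) (L' : Type) [Field L'] [Algebra K L'] [Algebra L L']
        [IsScalarTower K L L'] [FiniteDimensional L L'] (x : Fin (X.n + 1) → L') (r : ℕ),
        IsCorr X u x → FibresLE X u x r →
        -- (2) the closed subvarieties on which it is not constant
        (∀ e : ℕ, 2 * X.m + 2 * (r * e) ≤ X.size →
          ∀ (E : Type) [Field E] [Algebra K E] (w : ℕ) (z : Fin N → E), IsSub K u z w →
            ¬ ConstantOn X u x z → ∀ R : Subring K, InFinGen k R →
              NotDense K z (IntPts z e R)) ∧
        -- (3) quasi-finite correspondences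
        (∀ e : ℕ, 2 * X.m + 2 * (r * e) ≤ X.size → QuasiFinite X u x → FinitePoints k K u e) ∧
        -- (4) log general type
        (∀ (E : Type) [Field E] [Algebra K E] (w : ℕ) (z : Fin N → E), 0 < w → IsSub K u z w →
          GenericallyFiniteOn X u x z → 2 * X.m + 2 * r ≤ X.size + w → LogGeneral K z w) ∧
        (2 * X.m + 2 * r ≤ X.size + 1 → QuasiFinite X u x → AllLogGeneral K u))) ∧
    (∀ X : GenericPair k K, WithLines X → ∀ r : ℕ, 0 < r →
      -- (5) the exact bound for the integral points
      ((∀ (L : Type) [Field L] [Algebra K L] (N : ℕ) (u : Fin N → L),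
        IntermediateField.adjoin K (Set.range u) = ⊤ → Dominated X r u → FinitePoints k K u 1) ↔
        2 * X.n + 2 * r ≤ X.size) ∧
      -- (6) the exact bound for log general type
      ((∀ (L : Type) [Field L] [Algebra K L] (N : ℕ) (u : Fin N → L),
        IntermediateField.adjoin K (Set.range u) = ⊤ → Dominated X r u → AllLogGeneral K u) ↔
        2 * X.n + 2 * r ≤ X.size + 1) ∧
      -- (7) both properties fail for the same curve
      (X.size + 2 ≤ 2 * X.n + 2 * r → ∃ (L : Type) (_ : Field L) (_ : Algebra K L) (N : ℕ)
        (u : Fin N → L), IntermediateField.adjoin K (Set.range u) = ⊤ ∧ Algebra.trdeg K L = 1 ∧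
          (∀ z : L, IsIntegral (Algebra.adjoin K (Set.range u)) z →
            z ∈ Algebra.adjoin K (Set.range u)) ∧
          Dominated X r u ∧ ¬ LogGeneral K u 1 ∧
          ∃ T : Finset K, (IntPts u 1 (Subring.closure (T : Set K))).Infinite)) := by
  have hinfK : Infinite K := IsAlgClosed.instInfinite
  refine ⟨fun L _ _ N u hgen => ⟨fun e R hR => ?_,
    fun X L' _ _ _ _ _ x r hc hr => ?_⟩, fun X hX r hr0 => ⟨?_, ?_, fun hs => ?_⟩⟩
  · obtain ⟨T, hT⟩ := hR
    refine (Pool.Agent.N111.GJ.finite_off (k := k) (u := u) e T hT).subset ?_
    rintro s ⟨hs, hns⟩
    refine ⟨hs, fun hcon => hns ?_⟩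
    obtain ⟨E, i1, i2, w, z, hw, hz, hzs, h⟩ := hcon
    exact ⟨E, i1, i2, w, z, hw, hz, hzs, fun X L' _ _ _ _ _ x r hc hr hd =>
      h { X := X, L' := L', x := x, pt := hc.pt, integral := hc.integral } r hr hd⟩
  · let W : Pool.Agent.N111.GJ.Corr k K u :=
      { X := X, L' := L', x := x, pt := hc.pt, integral := hc.integral }
    refine ⟨fun e hd E _ _ w z hz hnc R hR => ?_, fun e hd hq R hR => ?_,
      fun E _ _ w z hw hz hgf hd => ?_, fun hd hq E _ _ w z hw hz => ?_⟩
    · obtain ⟨T, hT⟩ := hR
      have hnc' : ¬ W.ConstantOn z := hnc
      unfold Pool.Agent.N111.GJ.Corr.ConstantOn at hnc'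
      push Not at hnc'
      obtain ⟨φ, hφ, v, hv, hne⟩ := hnc'
      exact Pool.Agent.N111.GJ.nondense (W := W) hr hz.gen hφ hv hne hd T hT
    · obtain ⟨T, hT⟩ := hR
      exact Pool.Agent.N111.GJ.finite_of_qf (W := W) hr hq hd T hT
    · exact Pool.Agent.N111.GJ.log_general (W := W) hr hz hw hgf hd
    · exact Pool.Agent.N111.GJ.log_general (W := W) hr hz hw
        (Pool.Agent.N111.GJ.gf_of_qf (W := W) hq hz)
        (show 2 * X.m + 2 * r ≤ X.size + w by omega)
  · obtain ⟨hV, hm, hn, hd, hC⟩ := hX
    rw [← Pool.Agent.N111.GJ.exact_pts X hV hm hn hd hC hr0]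
    constructor
    · intro h L _ _ N u hgen W hWX hWr hWq T
      subst hWX
      refine h L N u hgen ⟨W.L', W.field, W.algK, W.algL, W.tower, W.fd, W.x,
        ⟨W.pt, W.integral⟩, hWr, hWq⟩ _ ⟨T, le_rfl⟩
    · intro h L _ _ N u hgen hD R hR
      obtain ⟨L', i1, i2, i3, i4, i5, x, hc, hr, hq⟩ := hD
      obtain ⟨T, hT⟩ := hR
      have h1 := h L N u hgen
        { X := X, L' := L', x := x, pt := hc.pt, integral := hc.integral } rfl hr hq T
      have h2 := (Pool.Agent.N111.GJ.exact_pts X hV hm hn hd hC hr0).1 h
      exact Pool.Agent.N111.GJ.finite_of_qf (e := 1)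
        (W := { X := X, L' := L', x := x, pt := hc.pt, integral := hc.integral }) hr hq
        (show 2 * X.m + 2 * (r * 1) ≤ X.size by rw [hm, mul_one]; exact h2) T hT
  · obtain ⟨hV, hm, hn, hd, hC⟩ := hX
    rw [← Pool.Agent.N111.GJ.exact_lgt X hV hm hn hd hC hr0]
    constructor
    · intro h L _ _ N u hgen W hWX hWr hWq E _ _ w z hw hz
      subst hWX
      exact h L N u hgen ⟨W.L', W.field, W.algK, W.algL, W.tower, W.fd, W.x,
        ⟨W.pt, W.integral⟩, hWr, hWq⟩ E w z hw hz
    · intro h L _ _ N u hgen hD E _ _ w z hw hz
      obtain ⟨L', i1, i2, i3, i4, i5, x, hc, hr, hq⟩ := hD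
      exact h L N u hgen
        { X := X, L' := L', x := x, pt := hc.pt, integral := hc.integral } rfl hr hq E w z hw hz
  · obtain ⟨hV, hm, hn, hd, hC⟩ := hX
    obtain ⟨L, i1, i2, u, hgen, htr, hnorm, ⟨W, hWX, hWd, hWq⟩, hnl, T, hT⟩ :=
      Pool.Agent.N111.GJ.exact_gm X hV hn hd hC hr0 hs
    subst hWX
    exact ⟨L, i1, i2, 2, u, hgen, htr, hnorm,
      ⟨W.L', W.field, W.algK, W.algL, W.tower, W.fd, W.x, ⟨W.pt, W.integral⟩,
        Pool.Agent.N111.GJ.FibresLE.mono (Pool.Agent.N111.GJ.fib_normal hnorm) hWd, hWq⟩,
      hnl, T, hT⟩

end Pool.Agent.Results.MP_26d9ad_nt.FiniteCorrespondences
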