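import Pool.Agent.U463.PV.Main

/-!
MP_26d9ad_nt, Q1: the conjecture of Lang and Vojta, with its converse, for all the closed
subvarieties of the complements of coordinate hyperplanes in the varieties of the vectors whose
`m`-th powers, for instance whose squares (Büchi's problem), are the values of a polynomial of low
degree at given nodes, if some of the nodes are constant and some are moving, for instance if the
nodes are generic.

Let `K` be an algebraically closed field of characteristic `0`. `PowVal a n m` is the (cone over
the) smooth complete intersection of dimension `n` in `P^N` of the vectors `x` for which there is a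
polynomial `H` of degree at most `n` with `x i ^ m = H (a i)` for all `i`. Let `V = {F = 0}` be any
closed subset of it for which these polynomials `H` are not divisible by the `m`-th power of a
polynomial of degree at least two (`AllSimple a n m F`; for `n < 2 m` this always holds). `Cone F` is
the cone over `V`. Let `U` be any set of indices, and let `X` be the complement in `V` of the
hyperplanes `x_j = 0`, `j ∈ U` (`ConeU U F` is the cone over `X`).

* `Moving k0 a n`: more than `4 n` of the nodes are in the subfield `k0`, and there is an `s`
  which is transcendental over `k0`, but algebraic over `k0 (a j)` for at least `n` indices `j`.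
* `AllLogGeneralType U F`: all the closed subvarieties of positive dimension of `X` are of log
  general type.
* `IntPts U F T`: the `A`-valued points of `X`, for the ring `A` generated by the finite set `T`:
  the points with homogeneous coordinates in `A` that generate the unit ideal of `A`, such that the
  `x_j`, `j ∈ U`, are units of `A`.
* `UnitPts U F k0 T Γ`: the points of `X` with homogeneous coordinates in the field generated by
  the finite set `T` over `k0`, such that the quotients of the `x_j`, `j ∈ U`, are in the group `Γ`.
* `GmLine U F p q`: the points `p`, `q` span a line, and all its points, except possibly `p` and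
  `q`, are in `X`.
-/

set_option autoImplicit false

namespace Pool.Agent.Results.MP_26d9ad_nt.PowerValueIntegral

open Pool.Agent.W602.GT Pool.Agent.Y190.BV Pool.Agent.Y190.GN Pool.Agent.Y190.QP
  Pool.Agent.U463.PV
open Pool.Agent.Y190.PH (AllSimple)

/-- Let `m ≥ 2`, `n ≥ 1`, `4 n + (n + 1) ^ 2 < 2 (N + 1)`, let the `a i` be distinct, and let
`X = V - {x_j = 0, j ∈ U}` be as above, where `Moving k0 a n` holds (for `N ≥ 5 n` this is the case
for some `k0` if the `a i` are algebraically independent). The following are equivalent: all the
closed subvarieties of positive dimension of `X` are of log general type; for all finite sets `T`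
and all finitely generated groups `Γ`, there are only finitely many points on `X` with coordinates
in the field `k0 (T)` and with quotients of the `x_j`, `j ∈ U`, in `Γ`; over every finitely
generated ring, there are only finitely many integral points on `X`; there is no line that meets the
complement of `X` in at most two points. -/
theorem result {K : Type} [Field K] [IsAlgClosed K] [CharZero K] {N n m : ℕ} (hm : 2 ≤ m)
    (hn : 1 ≤ n) (hN : 4 * n + (n + 1) ^ 2 < 2 * (N + 1))
    (a : Fin (N + 1) → K) (ha : Function.Injective a) :
    (5 * n ≤ N → AlgebraicIndependent ℚ a → ∃ k0 : Subfield K, Moving k0 a n) ∧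
    ∀ (ι : Type) (F : ι → MvPolynomial (Fin (N + 1)) K), (∀ e, IsForm (F e)) →
      (n < 2 * m → Cone F ⊆ PowVal a n m → AllSimple a n m F) ∧
      (AllSimple a n m F → ∀ k0 : Subfield K, Moving k0 a n → ∀ U : Set (Fin (N + 1)),
        [AllLogGeneralType U F,
          ∀ (T : Finset K) (Γ : Subgroup Kˣ), Γ.FG → (UnitPts U F k0 T Γ).Finite,
          ∀ T : Finset K, (IntPts U F T).Finite,
          ∀ p q, ¬ GmLine U F p q].TFAE) :=
  ⟨moving_of_indep hn, fun _ _ hF => ⟨fun hnm hV => allSimple_of_lt hnm hV,
    fun hV _ hk U => main hm hn hN ha hk U hF hV⟩⟩

end Pool.Agent.Results.MP_26d9ad_nt.PowerValueIntegral
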