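import Mathlib
import Pool.Agent.N111.QC.Def
import Pool.Agent.N111.QC.Emb
import Pool.Agent.U180.SQ.Mem

/-!
MP_26d9ad_nt, Q1: the conjecture of Lang and Vojta on the finiteness of integral points for all affine
schemes is equivalent to the conjecture for the complements of `2 N` smooth quadrics which cross
normally in the affine space `𝔸 ^ N`, for all `N`.

`O` is a finitely generated domain of characteristic zero, and `K` is an algebraically closed field
which contains `O` (for instance an algebraic closure of the field of fractions). Affine schemes of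
finite type over `O` are given as `{f = 0, g ≠ 0} ⊂ 𝔸 ^ σ`, `σ` a finite set: `f` is a finite family of
equations and `g` is a finite family of functions which have to be invertible. They can be singular,
reducible or not flat over `O`.

* `Pts R f g`: the points over the `O`-algebra `R`;
* `AllLG K f g`: all closed subvarieties of positive dimension over `K` are of log general type
  (`LogGeneralType`, `Pool/Agent/W602/GT/Defs.lean`). A subvariety with function field `E` is given by
  its generic point `x` (`GenPt`); the places of `E` without centre on it are those for which some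
  coordinate or the inverse of some function `g` is not regular;
* `LV K f g`: the assertion of Q1: if `AllLG K f g` then `Pts O f g` is finite;
* `NormalCrossings K Q`: the hypersurfaces `Q_l = 0` in affine space over `K` are smooth and cross
  normally: at each point the gradients of those `Q_l` which vanish there are linearly independent.

Theorem. Every affine scheme `U` of finite type over `O` is a closed subscheme of the complement `X` of
`2 N` smooth quadrics which cross normally in an affine space `𝔸 ^ N`, such that all subvarieties of `X`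
of positive dimension which are not contained in `U` are of log general type and, for every finitely
generated domain `R` which contains `O`, only finitely many points of `X` over `R` are not in `U`. So
the assertion of Q1 for `U` is equivalent to the assertion for `X`, and the conjecture holds for all
affine schemes over `O` if and only if it holds for the complements of `2 N` smooth quadrics (zero
sets of polynomials of degree at most two) which cross normally in affine spaces `𝔸 ^ N`.

Proof. As in the library of helper111 (`Pool/Agent/N111/QC`), `U` is embedded by all monomials of degree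
at most `d`, `d` large, in an affine space of dimension `N`, where it is defined by quadratic equations
`T_1, …, T_M`; the fibres of the map `(T_1, …, T_M)` outside of `U` are finite. By a Noether
normalization with integers as coefficients (`Pool/Agent/U180/SQ/Noe.lean`) there are `N` linear
combinations `S_1, …, S_N` of the `T_i` such that the `T_i` are integral over the algebra generated by
the `S_j`; so the fibres of `(S_1, …, S_N)` outside of `U` are finite. Let `X` be the complement of
`Q_l = 1 + A_l1 S_1 + … + A_lN S_N = 0`, `l = 1, …, 2 N`, for general integers `A_lj`. Any `N + 1` of the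
linear forms `1, Q_1, …, Q_2N` in `1, S_1, …, S_N` are independent, so by Green's argument, unit
equations over finitely generated domains and a theorem on logarithmic differentials the `S_j` are
constant where they should be. If some of the `Q_l` vanish at a point `x`, which may depend on the
`A_lj`, and have linearly dependent gradients there, `∑ λ_l ∇ Q_l (x) = 0`, one applies the derivation
`∂ / ∂A_li` to the equations `Q_l (x) = 0`: this gives `λ_l S_i (x) = 0`, hence `S (x) = 0` and
`Q_l (x) = 1`, a contradiction (`Pool/Agent/U180/SQ/Nc.lean`).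
-/

set_option autoImplicit false
set_option linter.overlappingInstances false

namespace Pool.Agent.Results.MP_26d9ad_nt.SmoothQuadrics

open MvPolynomial FF
open Pool.Agent.W602.GT (LogGeneralType)
open Pool.Agent.N111.QC (Mon TI num eqs enum lin deg_e zero_iff)
open Pool.Agent.U180.SQ (Good IntegralOver comb member GP vec)

section defs

variable {O σ ι κ : Type} [CommRing O]

/-- The points over the `O`-algebra `R` of the affine scheme `{f = 0, g ≠ 0}` in `𝔸 ^ σ`. -/
def Pts (R : Type) [CommRing R] [Algebra O R] (f : ι → MvPolynomial σ O)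
    (g : κ → MvPolynomial σ O) : Set (σ → R) :=
  {x | (∀ i, aeval x (f i) = 0) ∧ ∀ j, IsUnit (aeval x (g j))}

/-- `x` is the generic point of a closed subvariety, over the algebraically closed field `K`, of the
scheme `{f = 0, g ≠ 0}`, with function field `E`. -/
def GenPt (K : Type) {E : Type} [Field K] [Field E] [Algebra O E] [Algebra K E]
    (f : ι → MvPolynomial σ O) (g : κ → MvPolynomial σ O) (x : σ → E) : Prop :=
  (∀ i, aeval x (f i) = 0) ∧ (∀ j, aeval x (g j) ≠ 0) ∧
    IntermediateField.adjoin K (Set.range x) = ⊤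

/-- The place `P` of the function field `E` has no centre on the subvariety with generic point `x`
of the scheme `{f = 0, g ≠ 0}`. -/
def NoCentre {K E : Type} [Field K] [Field E] [Algebra O E] [Algebra K E]
    (g : κ → MvPolynomial σ O) (x : σ → E) (P : Place K E) : Prop :=
  (∃ i, ¬ P.Reg (x i)) ∨ ∃ j, ¬ P.Reg (aeval x (g j))⁻¹

/-- All closed subvarieties of positive dimension over `K` of the scheme `{f = 0, g ≠ 0}` are of log
general type. -/
def AllLG (K : Type) [Field K] [Algebra O K] (f : ι → MvPolynomial σ O)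
    (g : κ → MvPolynomial σ O) : Prop :=
  ∀ (E : Type) [Field E] [Algebra O E] [Algebra K E] [IsScalarTower O K E] (x : σ → E) (w : ℕ),
    GenPt K f g x → 0 < w → Algebra.trdeg K E = w → LogGeneralType K E w (NoCentre g x)

/-- The conjecture of Lang and Vojta (Q1) for the affine scheme `{f = 0, g ≠ 0}` over `O`. -/
def LV (K : Type) [Field K] [Algebra O K] (f : ι → MvPolynomial σ O)
    (g : κ → MvPolynomial σ O) : Prop :=
  AllLG K f g → (Pts O f g).Finite

/-- the empty family of polynomials -/
def none' (O σ : Type) [CommRing O] : Empty → MvPolynomial σ O := Empty.elim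

/-- The hypersurfaces `Q l = 0` in the affine space over `K` are smooth and cross normally: at each
point the differentials of those `Q l` which vanish there are linearly independent. -/
def NormalCrossings {μ : Type} (K : Type) [Field K] [Algebra O K] (Q : μ → MvPolynomial σ O) :
    Prop :=
  ∀ x : σ → K, LinearIndependent K fun (l : {l : μ // aeval x (Q l) = 0}) (j : σ) =>
    aeval x (pderiv j (Q l))

/-- The closed subscheme `{T = 0}` of `𝔸 ^ υ` is the isomorphic image of the affine scheme
`{f = 0, g ≠ 0}` in `𝔸 ^ σ` under the morphism given by the functions `v`; the inverse is given by the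
coordinates `c`. -/
def IsImage {υ θ : Type} (f : ι → MvPolynomial σ O) (g : κ → MvPolynomial σ O)
    (T : θ → MvPolynomial υ O) (c : σ → υ) : Prop :=
  ∀ (R : Type) [CommRing R] [Algebra O R],
    Set.BijOn (fun (y : υ → R) (j : σ) => y (c j)) (Pts R T (none' O υ)) (Pts R f g)

end defs

/-! ### Inverting functions by new variables -/

section invert

variable {O σ ι κ : Type} [CommRing O]

/-- the equations after the introduction of inverses of the functions `g` -/
noncomputable def fi (f : ι → MvPolynomial σ O) (g : κ → MvPolynomial σ O) :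
    ι ⊕ κ → MvPolynomial (σ ⊕ κ) O :=
  Sum.elim (fun i => rename Sum.inl (f i)) fun j => X (Sum.inr j) * rename Sum.inl (g j) - 1

theorem fi_zero {R : Type} [CommRing R] [Algebra O R] (f : ι → MvPolynomial σ O)
    (g : κ → MvPolynomial σ O) (z : σ ⊕ κ → R) : (∀ i, aeval z (fi f g i) = 0) ↔
      (∀ i, aeval (fun l => z (Sum.inl l)) (f i) = 0) ∧
        ∀ j, z (Sum.inr j) * aeval (fun l => z (Sum.inl l)) (g j) = 1 := by
  have h1 : ∀ p : MvPolynomial σ O, aeval z (rename Sum.inl p) =
      aeval (fun l => z (Sum.inl l)) p := fun p => by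
    rw [aeval_rename]
    rfl
  rw [Sum.forall]
  refine and_congr (forall_congr' fun i => ?_) (forall_congr' fun j => ?_)
  · change aeval z (rename Sum.inl (f i)) = 0 ↔ _
    rw [h1]
  · change aeval z (X (Sum.inr j) * rename Sum.inl (g j) - 1) = 0 ↔ _
    rw [map_sub, map_mul, h1, aeval_X, map_one, sub_eq_zero]

theorem pts_inv {R : Type} [CommRing R] [Algebra O R] (f : ι → MvPolynomial σ O)
    (g : κ → MvPolynomial σ O) :
    Set.BijOn (fun (z : σ ⊕ κ → R) (j : σ) => z (Sum.inl j)) (Pts R (fi f g) (none' O _))
      (Pts R f g) := by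
  refine ⟨fun z hz => ?_, fun z hz z' hz' h => ?_, fun x hx => ?_⟩
  · obtain ⟨h1, h2⟩ := (fi_zero f g z).1 hz.1
    exact ⟨h1, fun j => IsUnit.of_mul_eq_one _ ((mul_comm _ _).trans (h2 j))⟩
  · obtain ⟨-, h2⟩ := (fi_zero f g z).1 hz.1
    obtain ⟨-, h3⟩ := (fi_zero f g z').1 hz'.1
    have h4 : ∀ l, z (Sum.inl l) = z' (Sum.inl l) := fun l => congrFun h l
    funext v
    rcases v with l | j
    · exact h4 l
    · have h5 : (fun l => z' (Sum.inl l)) = fun l => z (Sum.inl l) := funext fun l => (h4 l).symm
      have h6 := h2 j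
      have h7 := h3 j
      rw [h5] at h7
      calc z (Sum.inr j) = z (Sum.inr j) * (z' (Sum.inr j) *
            aeval (fun l => z (Sum.inl l)) (g j)) := by rw [h7, mul_one]
        _ = z' (Sum.inr j) * (z (Sum.inr j) * aeval (fun l => z (Sum.inl l)) (g j)) := by ring
        _ = z' (Sum.inr j) := by rw [h6, mul_one]
  · obtain ⟨h1, h2⟩ := hx
    choose u hu using h2
    refine ⟨Sum.elim x fun j => ((u j)⁻¹ : Rˣ), ⟨(fi_zero f g _).2 ⟨h1, fun j => ?_⟩,
      fun e => e.elim⟩, rfl⟩
    change ((u j)⁻¹ : Rˣ) * aeval x (g j) = (1 : R)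
    rw [← hu j, Units.inv_mul]

theorem noCentre_inv {K E : Type} [Field K] [Field E] [Algebra O E] [Algebra K E]
    (f : ι → MvPolynomial σ O) (g : κ → MvPolynomial σ O) {z : σ ⊕ κ → E}
    (h5 : ∀ j, z (Sum.inr j) * aeval (fun l => z (Sum.inl l)) (g j) = 1) :
    (NoCentre (K := K) (none' O (σ ⊕ κ)) z) =
      NoCentre (K := K) g fun l => z (Sum.inl l) := by
  have h7 : ∀ j, z (Sum.inr j) = (aeval (fun l => z (Sum.inl l)) (g j))⁻¹ := fun j =>
    eq_inv_of_mul_eq_one_left (h5 j)
  funext P
  apply propext
  unfold NoCentre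
  constructor
  · rintro (⟨l | j, hl⟩ | ⟨e, _⟩)
    · exact Or.inl ⟨l, hl⟩
    · exact Or.inr ⟨j, by rwa [← h7 j]⟩
    · exact e.elim
  · rintro (⟨l, hl⟩ | ⟨j, hj⟩)
    · exact Or.inl ⟨Sum.inl l, hl⟩
    · exact Or.inl ⟨Sum.inr j, by rwa [h7 j]⟩

theorem aeval_mem {K E : Type} [Field K] [Field E] [Algebra O K] [Algebra O E] [Algebra K E]
    [IsScalarTower O K E] (x : σ → E) (p : MvPolynomial σ O) :
    aeval x p ∈ IntermediateField.adjoin K (Set.range x) := by
  induction p using MvPolynomial.induction_on with
  | C a =>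
    rw [aeval_C, IsScalarTower.algebraMap_apply O K E]
    exact IntermediateField.algebraMap_mem _ _
  | add p q hp hq => rw [map_add]; exact add_mem hp hq
  | mul_X p j hp =>
    rw [map_mul, aeval_X]
    exact mul_mem hp (IntermediateField.subset_adjoin _ _ ⟨j, rfl⟩)

theorem lg_inv {K : Type} [Field K] [Algebra O K] (f : ι → MvPolynomial σ O)
    (g : κ → MvPolynomial σ O) : AllLG K (fi f g) (none' O _) ↔ AllLG K f g := by
  constructor
  · rintro h E _ _ _ _ x w ⟨h1, h2, h3⟩ hw htr
    set z : σ ⊕ κ → E := Sum.elim x fun j => (aeval x (g j))⁻¹ with hz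
    have h5 : ∀ j, z (Sum.inr j) * aeval (fun l => z (Sum.inl l)) (g j) = 1 := fun j =>
      inv_mul_cancel₀ (h2 j)
    have h8 := h E z w ⟨(fi_zero f g z).2 ⟨h1, h5⟩, fun e => e.elim, ?_⟩ hw htr
    · rw [noCentre_inv f g h5] at h8
      exact h8
    · rw [eq_top_iff, ← h3, IntermediateField.adjoin_le_iff]
      rintro _ ⟨l, rfl⟩
      exact IntermediateField.subset_adjoin _ _ ⟨Sum.inl l, rfl⟩
  · rintro h E _ _ _ _ z w ⟨h1, -, h3⟩ hw htr
    obtain ⟨h4, h5⟩ := (fi_zero f g z).1 h1
    have h6 : ∀ j, aeval (fun l => z (Sum.inl l)) (g j) ≠ 0 := fun j h0 => by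
      have := h5 j
      rw [h0, mul_zero] at this
      exact zero_ne_one this
    have h7 : ∀ j, z (Sum.inr j) = (aeval (fun l => z (Sum.inl l)) (g j))⁻¹ := fun j =>
      eq_inv_of_mul_eq_one_left (h5 j)
    rw [noCentre_inv f g h5]
    refine h E (fun l => z (Sum.inl l)) w ⟨h4, h6, ?_⟩ hw htr
    rw [eq_top_iff, ← h3, IntermediateField.adjoin_le_iff]
    rintro _ ⟨l | j, rfl⟩
    · exact IntermediateField.subset_adjoin _ _ ⟨l, rfl⟩
    · rw [h7 j]
      exact inv_mem (aeval_mem _ _)

end invert

/-! ### The quadrics -/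

section quadrics

variable {O σ ι : Type} [CommRing O] [Finite ι] [Finite σ]

theorem lin_deg (f : ι → MvPolynomial σ O) (d : ℕ) (a : Option ι) :
    (lin f d a).totalDegree ≤ 1 := by
  classical
  rcases a with _ | i
  · change (X _ - 1 : MvPolynomial (Mon σ d) O).totalDegree ≤ 1
    refine (totalDegree_sub _ _).trans ?_
    rw [totalDegree_one]
    refine max_le ?_ (Nat.zero_le _)
    exact (totalDegree_monomial_le _ _).trans (by simp)
  · change (∑ α : Mon σ d, C ((f i).coeff α) * X α : MvPolynomial (Mon σ d) O).totalDegree ≤ 1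
    refine (totalDegree_finsetSum _ _).trans (Finset.sup_le fun α _ => ?_)
    refine (totalDegree_mul _ _).trans ?_
    rw [totalDegree_C, zero_add]
    exact (totalDegree_monomial_le _ _).trans (by simp)

theorem X_deg {τ : Type} (a : τ) : (X a : MvPolynomial τ O).totalDegree ≤ 1 :=
  (totalDegree_monomial_le _ _).trans (by simp)

theorem eqs_deg (f : ι → MvPolynomial σ O) (d : ℕ) (t : TI ι σ d) :
    (eqs f d t).totalDegree ≤ 2 := by
  rcases t with ⟨a, _ | β⟩ | q
  · change (lin f d a).totalDegree ≤ 2
    exact (lin_deg f d a).trans (by norm_num)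
  · change (lin f d a * X β).totalDegree ≤ 2
    exact (totalDegree_mul _ _).trans (add_le_add (lin_deg f d a) (X_deg β))
  · change (X q.1.1.1 * X q.1.1.2 - X q.1.2.1 * X q.1.2.2 : MvPolynomial _ O).totalDegree ≤ 2
    refine (totalDegree_sub _ _).trans (max_le ?_ ?_)
    · exact (totalDegree_mul _ _).trans (add_le_add (X_deg _) (X_deg _))
    · exact (totalDegree_mul _ _).trans (add_le_add (X_deg _) (X_deg _))


/-- the equations, enumerated -/
noncomputable def tt (f : ι → MvPolynomial σ O) (d : ℕ) : Fin (num ι σ d) →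
    MvPolynomial (Mon σ d) O := fun i => eqs f d (enum ι σ d i)

theorem tt_iff {R : Type} [CommRing R] (φ : O →+* R) (f : ι → MvPolynomial σ O) (d : ℕ)
    (y : Mon σ d → R) : (∃ i, eval₂ φ y (tt f d i) ≠ 0) ↔ ∃ t, eval₂ φ y (eqs f d t) ≠ 0 :=
  ⟨fun ⟨i, hi⟩ => ⟨_, hi⟩, fun ⟨t, ht⟩ => ⟨(enum ι σ d).symm t, by
    rw [tt, Equiv.apply_symm_apply]; exact ht⟩⟩

theorem good (f : ι → MvPolynomial σ O) {d : ℕ} (hd : 4 ≤ d) : Good (tt f d) := by
  refine ⟨fun Ω _ φ v hv => ?_, fun Ω _ φ L0 y hy hne α => ?_⟩
  · have h1 := Pool.Agent.N111.QC.fib_finite (f := f) φ hd (fun t => v ((enum ι σ d).symm t)) (by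
      obtain ⟨i, hi⟩ := hv
      exact ⟨enum ι σ d i, by rwa [Equiv.symm_apply_apply]⟩)
    refine h1.subset fun y hy t => ?_
    have h2 := hy ((enum ι σ d).symm t)
    rwa [tt, Equiv.apply_symm_apply] at h2
  · refine Pool.Agent.N111.QC.fib_alg (f := f) φ hd L0 y (fun t => ?_) ((tt_iff φ f d y).1 hne) α
    have h2 := hy ((enum ι σ d).symm t)
    rwa [tt, Equiv.apply_symm_apply] at h2

theorem intCast_deg {τ : Type} (a : ℤ) : (a : MvPolynomial τ O).totalDegree = 0 := by
  have h : (a : MvPolynomial τ O) = C (a : O) := (map_intCast (C : O →+* MvPolynomial τ O) a).symm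
  rw [h, totalDegree_C]

theorem comb_deg (f : ι → MvPolynomial σ O) (d : ℕ) {N : ℕ} (B : Fin N → Fin (num ι σ d) → ℤ)
    (j : Fin N) : (comb B (tt f d) j).totalDegree ≤ 2 := by
  refine (totalDegree_finsetSum _ _).trans (Finset.sup_le fun i _ => ?_)
  refine (totalDegree_mul _ _).trans ?_
  rw [intCast_deg, zero_add]
  exact eqs_deg f d _

theorem member_deg {τ : Type} {N L : ℕ} {S : Fin N → MvPolynomial τ O}
    (hS : ∀ j, (S j).totalDegree ≤ 2) (A : Fin L → Fin N → ℤ) (l : Fin L) :
    (member S A l).totalDegree ≤ 2 := by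
  refine (totalDegree_add _ _).trans (max_le ?_ ?_)
  · rw [totalDegree_one]
    exact Nat.zero_le _
  · refine (totalDegree_finsetSum _ _).trans (Finset.sup_le fun j _ => ?_)
    refine (totalDegree_mul _ _).trans ?_
    rw [intCast_deg, zero_add]
    exact hS j

theorem member_ideal {τ : Type} {N L : ℕ} {S : Fin N → MvPolynomial τ O} {I : Ideal (MvPolynomial τ O)}
    (hS : ∀ j, S j ∈ I) (A : Fin L → Fin N → ℤ) (l : Fin L) : member S A l - 1 ∈ I := by
  rw [member, add_sub_cancel_left]
  exact Ideal.sum_mem _ fun j _ => Ideal.mul_mem_left _ _ (hS j)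

/-- the coordinate with the exponent `e_j` -/
noncomputable def co (d : ℕ) (hd : 4 ≤ d) (j : σ) : Mon σ d :=
  ⟨Finsupp.single j 1, by rw [deg_e]; omega⟩

/-- the monomials -/
noncomputable def ver {R : Type} [CommRing R] (d : ℕ) (x : σ → R) (α : Mon σ d) : R :=
  (α : σ →₀ ℕ).prod fun j m => x j ^ m

theorem ver_co {R : Type} [CommRing R] (d : ℕ) (hd : 4 ≤ d) (x : σ → R) (j : σ) :
    ver d x (co d hd j) = x j := by
  rw [ver, co]
  simp

variable {f : ι → MvPolynomial σ O} {d : ℕ} (hd : 4 ≤ d) (hf : ∀ i, (f i).totalDegree ≤ d)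

include hf in
theorem eqs_iff {R : Type} [CommRing R] [Algebra O R] (y : Mon σ d → R) :
    (∀ t, aeval y (eqs f d t) = 0) ↔
      (∀ i, aeval (fun j => y (co d hd j)) (f i) = 0) ∧ y = ver d fun j => y (co d hd j) := by
  have h1 := zero_iff (f := f) (d := d) (algebraMap O R) (by omega) hf y
  rw [funext_iff]
  exact h1

include hd hf in
theorem ver_eqs {R : Type} [CommRing R] [Algebra O R] {x : σ → R}
    (hx : ∀ i, aeval x (f i) = 0) (t : TI ι σ d) : aeval (ver d x) (eqs f d t) = 0 := by
  have h1 : (fun j => ver d x (co d hd j)) = x := funext fun j => ver_co d hd x j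
  exact (eqs_iff hd hf (ver d x)).2 ⟨by rw [h1]; exact hx, by rw [h1]⟩ t


end quadrics

/-! ### Subvarieties and integral points -/

section off

variable {O σ ι : Type} [CommRing O] [Finite ι] [Finite σ] {f : ι → MvPolynomial σ O} {d : ℕ}

/-- on the zero set of the equations the quadrics have the value one -/
theorem one_of_mem {τ θ μ : Type} {T : θ → MvPolynomial τ O} {Q : μ → MvPolynomial τ O}
    (hQ : ∀ l, Q l - 1 ∈ Ideal.span (Set.range T)) {R : Type} [CommRing R] [Algebra O R]
    {y : τ → R} (h : ∀ t, aeval y (T t) = 0) (l : μ) : aeval y (Q l) = 1 := by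
  have h1 : Ideal.span (Set.range T) ≤ RingHom.ker (aeval y : MvPolynomial τ O →ₐ[O] R) := by
    rw [Ideal.span_le]
    rintro _ ⟨t, rfl⟩
    exact h t
  have h2 : aeval y (Q l - 1) = 0 := h1 (hQ l)
  rwa [map_sub, map_one, sub_eq_zero] at h2

variable {N : ℕ} {S : Fin N → MvPolynomial (Mon σ d) O} {A : Fin (2 * N) → Fin N → ℤ}

/-- **The subvarieties which are not contained in the closed subscheme.** -/
theorem lg_off (hd : 4 ≤ d) (hS : IntegralOver (tt f d) S) (hA : GP (vec A)) {K : Type} [Field K]
    [IsAlgClosed K] [CharZero K] [Algebra O K] (hO : Function.Injective (algebraMap O K))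
    {E : Type} [Field E] [Algebra O E] [Algebra K E] [IsScalarTower O K E] {y : Mon σ d → E}
    {w : ℕ} (hg : GenPt K (none' O _) (member S A) y) (hoff : ∃ t, aeval y (eqs f d t) ≠ 0)
    (hw : 0 < w) (htr : Algebra.trdeg K E = w) :
    LogGeneralType K E w (NoCentre (member S A) y) :=
  Pool.Agent.U180.SQ.lg_member (good f hd) hS hA hO hg.2.2 hg.2.1
    ((tt_iff (algebraMap O E) f d y).2 hoff) hw htr

/-- **The integral points which are not on the closed subscheme.** -/
theorem pts_off (hd : 4 ≤ d) (hS : IntegralOver (tt f d) S) (hA : GP (vec A)) (R : Type)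
    [CommRing R] [IsDomain R] [CharZero R] [Algebra.FiniteType ℤ R] [Algebra O R]
    (hO : Function.Injective (algebraMap O R)) :
    {y ∈ Pts R (none' O _) (member S A) | ∃ t, aeval y (eqs f d t) ≠ 0}.Finite := by
  obtain ⟨e, s, he, hs, hes⟩ := Pool.Agent.N111.QC.exists_embed_fg R
  have h1 := Pool.Agent.U180.SQ.pts_member (good f hd) hS hA (e.comp (algebraMap O R))
    (he.comp hO) s hs
  refine Set.Finite.of_finite_image (f := fun y α => e (y α)) (h1.subset ?_) ?_
  · rintro _ ⟨y, ⟨⟨-, hy⟩, t, ht⟩, rfl⟩
    have hev : ∀ p : MvPolynomial (Mon σ d) O,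
        eval₂ (e.comp (algebraMap O R)) (fun α => e (y α)) p = e (aeval y p) := fun p =>
      (eval₂_comp_left e (algebraMap O R) y p).symm
    have hmem : ∀ r : R, e r ∈ Subring.closure s := fun r => by
      rw [← hes]
      exact ⟨r, rfl⟩
    refine ⟨fun l => ?_, (tt_iff _ f d _).2 ⟨t, ?_⟩⟩
    · obtain ⟨u, hu⟩ := hy l
      rw [hev]
      refine ⟨?_, hmem _, ?_⟩
      · rw [← hu]
        intro h0
        exact u.ne_zero (he (by rw [h0, map_zero]))
      · rw [← hu]
        have h5 : (e (u : R))⁻¹ = e ((u⁻¹ : Rˣ) : R) := by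
          symm
          apply eq_inv_of_mul_eq_one_left
          rw [← map_mul, Units.inv_mul, map_one]
        rw [h5]
        exact hmem _
    · rw [hev]
      intro h0
      exact ht (he (by rw [h0, map_zero]))
  · intro a _ b _ h
    funext α
    exact he (congrFun h α)

variable {μ : Type} {Q : μ → MvPolynomial (Mon σ d) O} (hd : 4 ≤ d)
  (hf : ∀ i, (f i).totalDegree ≤ d)

include hd hf in
theorem lg_iff {K : Type} [Field K] [IsAlgClosed K] [CharZero K] [Algebra O K]
    (hQ : ∀ l, Q l - 1 ∈ Ideal.span (Set.range (eqs f d)))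
    (hlg : ∀ (E : Type) [Field E] [Algebra O E] [Algebra K E] [IsScalarTower O K E]
      (y : Mon σ d → E) (w : ℕ), GenPt K (none' O _) Q y → (∃ t, aeval y (eqs f d t) ≠ 0) →
      0 < w → Algebra.trdeg K E = w → LogGeneralType K E w (NoCentre Q y)) :
    AllLG K (none' O _) Q ↔ AllLG K f (none' O σ) := by
  have hb : ∀ {E : Type} [Field E] [Algebra O E] [Algebra K E] {x : σ → E},
      (∀ i, aeval x (f i) = 0) → (NoCentre (K := K) Q (ver d x)) =
        NoCentre (K := K) (none' O σ) x := by
    intro E _ _ _ x hx
    funext P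
    apply propext
    have h1 : ∀ l, aeval (ver d x) (Q l) = 1 := one_of_mem hQ (ver_eqs hd hf hx)
    have hreg : (∀ j, P.Reg (x j)) → ∀ α : Mon σ d, P.Reg (ver d x α) := by
      intro h α
      unfold ver Finsupp.prod
      classical
      have h2 : ∀ A : Finset σ, P.Reg (∏ j ∈ A, x j ^ (α : σ →₀ ℕ) j) := by
        intro A
        induction A using Finset.induction_on with
        | empty => exact P.reg_one
        | insert a A ha ih =>
          rw [Finset.prod_insert ha]
          exact P.reg_mul (Pool.Agent.N111.QC.reg_pow P (h a) _) ih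
      exact h2 _
    constructor
    · rintro (⟨α, hα⟩ | ⟨l, hl⟩)
      · left
        by_contra hcon
        push Not at hcon
        exact hα (hreg hcon α)
      · exfalso
        rw [h1, inv_one] at hl
        exact hl P.reg_one
    · rintro (⟨j, hj⟩ | ⟨e, _⟩)
      · exact Or.inl ⟨co d hd j, by rwa [ver_co]⟩
      · exact e.elim
  constructor
  · rintro h E _ _ _ _ x w ⟨hx, -, hgen⟩ hw htr
    rw [← hb hx]
    refine h E (ver d x) w ⟨fun e => e.elim, fun l => ?_, ?_⟩ hw htr
    · rw [one_of_mem hQ (ver_eqs hd hf hx)]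
      exact one_ne_zero
    · rw [eq_top_iff, ← hgen, IntermediateField.adjoin_le_iff]
      rintro _ ⟨j, rfl⟩
      exact IntermediateField.subset_adjoin _ _ ⟨co d hd j, ver_co d hd x j⟩
  · rintro h E _ _ _ _ y w hg hw htr
    by_cases hoff : ∃ t, aeval y (eqs f d t) ≠ 0
    · exact hlg E y w hg hoff hw htr
    · push Not at hoff
      obtain ⟨hx, hy⟩ := (eqs_iff hd hf y).1 hoff
      have h1 := h E (fun j => y (co d hd j)) w ⟨hx, fun e => e.elim, ?_⟩ hw htr
      · rw [← hb hx, ← hy] at h1
        exact h1
      · rw [eq_top_iff, ← hg.2.2, IntermediateField.adjoin_le_iff]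
        rintro _ ⟨α, rfl⟩
        rw [congrFun hy α]
        unfold ver Finsupp.prod
        exact prod_mem fun j _ => pow_mem (IntermediateField.subset_adjoin K
          (Set.range fun j => y (co d hd j)) ⟨j, rfl⟩) _

include hf in
theorem image (R : Type) [CommRing R] [Algebra O R] :
    Set.BijOn (fun (y : Mon σ d → R) (j : σ) => y (co d hd j)) (Pts R (eqs f d) (none' O _))
      (Pts R f (none' O _)) := by
  refine ⟨fun y hy => ⟨((eqs_iff hd hf y).1 hy.1).1, fun e => e.elim⟩, fun y hy y' hy' h => ?_,
    fun x hx => ?_⟩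
  · rw [((eqs_iff hd hf y).1 hy.1).2, ((eqs_iff hd hf y').1 hy'.1).2]
    exact congrArg (ver d) h
  · exact ⟨ver d x, ⟨ver_eqs hd hf hx.1, fun e => e.elim⟩, funext fun j => ver_co d hd x j⟩

end off

/-- **Normal crossings.** -/
theorem exists_normal {O τ : Type} [CommRing O] [Finite τ] {N L : ℕ} (K : Type) [Field K]
    [CharZero K] [Algebra O K] (S : Fin N → MvPolynomial τ O) :
    ∃ A : Fin L → Fin N → ℤ, GP (vec A) ∧ NormalCrossings K (member S A) := by
  classical
  have : Fintype τ := Fintype.ofFinite τ
  obtain ⟨A, -, hA, h⟩ := Pool.Agent.U180.SQ.exists_vectors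
    (fun j => map (algebraMap O K) (S j)) L
  refine ⟨A, hA, fun x => ?_⟩
  have hv : ∀ l, aeval x (member S A l) =
      1 + ∑ j, (A l j : K) * aeval x (map (algebraMap O K) (S j)) := by
    intro l
    simp only [member, map_add, map_one, map_sum, map_mul, map_intCast, aeval_map_algebraMap]
  have hp : ∀ l i, aeval x (pderiv i (member S A l)) =
      ∑ j, (A l j : K) * aeval x (pderiv i (map (algebraMap O K) (S j))) := by
    intro l i
    have h1 : ∀ j, pderiv i ((A l j : MvPolynomial τ O) * S j) =
        (A l j : MvPolynomial τ O) * pderiv i (S j) := by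
      intro j
      rw [Derivation.leibniz, Derivation.map_intCast, smul_zero, add_zero, smul_eq_mul]
    simp only [member, map_add, map_sum, Derivation.map_one_eq_zero, zero_add, h1, map_mul,
      map_intCast, pderiv_map, aeval_map_algebraMap]
  rw [Fintype.linearIndependent_iff]
  intro g hg l0
  let lam : Fin L → K := fun l => if h : aeval x (member S A l) = 0 then g ⟨l, h⟩ else 0
  have hlam : lam = 0 := by
    refine h x lam (fun l => ?_) fun i => ?_
    · rw [← hv]
      by_cases h0 : aeval x (member S A l) = 0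
      · rw [h0, mul_zero]
      · simp only [lam, dif_neg h0, zero_mul]
    · have h1 := congrFun hg i
      simp only [Finset.sum_apply, Pi.smul_apply, smul_eq_mul, Pi.zero_apply] at h1
      rw [← h1]
      calc ∑ l, lam l * ∑ j, (A l j : K) * aeval x (pderiv i (map (algebraMap O K) (S j)))
          = ∑ l, lam l * aeval x (pderiv i (member S A l)) :=
            Finset.sum_congr rfl fun l _ => by rw [hp]
        _ = ∑ l ∈ Finset.univ.filter fun l => aeval x (member S A l) = 0,
              lam l * aeval x (pderiv i (member S A l)) := by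
            symm
            refine Finset.sum_subset (Finset.filter_subset _ _) fun l _ hl => ?_
            have h2 : ¬ aeval x (member S A l) = 0 := fun h0 =>
              hl (Finset.mem_filter.2 ⟨Finset.mem_univ _, h0⟩)
            simp only [lam, dif_neg h2, zero_mul]
        _ = ∑ l : {l // aeval x (member S A l) = 0},
              lam l.1 * aeval x (pderiv i (member S A l.1)) :=
            Finset.sum_subtype _ (by simp) _
        _ = ∑ l : {l // aeval x (member S A l) = 0},
              g l * aeval x (pderiv i (member S A l.1)) :=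
            Finset.sum_congr rfl fun l _ => by simp only [lam, dif_pos l.2]
  have h3 := congrFun hlam l0.1
  simp only [lam, dif_pos l0.2, Pi.zero_apply] at h3
  exact h3

/-- **The embedding.** See the main theorem. -/
theorem embed {O : Type} [CommRing O] [IsDomain O] [CharZero O] [Algebra.FiniteType ℤ O]
    {K : Type} [Field K] [IsAlgClosed K] [CharZero K] [Algebra O K]
    (hK : Function.Injective (algebraMap O K)) {σ ι κ : Type} [Finite σ]
    [Finite ι] [Finite κ] (f : ι → MvPolynomial σ O) (g : κ → MvPolynomial σ O) :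
    ∃ (υ θ : Type) (_ : Finite υ) (_ : Finite θ) (Q : Fin (2 * Nat.card υ) → MvPolynomial υ O)
      (T : θ → MvPolynomial υ O) (c : σ → υ),
      (∀ l, (Q l).totalDegree ≤ 2) ∧ NormalCrossings K Q ∧ (∀ t, (T t).totalDegree ≤ 2) ∧
      (∀ l, Q l - 1 ∈ Ideal.span (Set.range T)) ∧ IsImage f g T c ∧
      (∀ (E : Type) [Field E] [Algebra O E] [Algebra K E] [IsScalarTower O K E] (y : υ → E) (w : ℕ),
        GenPt K (none' O υ) Q y → (∃ t, aeval y (T t) ≠ 0) → 0 < w → Algebra.trdeg K E = w →
        LogGeneralType K E w (NoCentre Q y)) ∧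
      (∀ (R : Type) [CommRing R] [IsDomain R] [CharZero R] [Algebra.FiniteType ℤ R] [Algebra O R],
        Function.Injective (algebraMap O R) →
        {y ∈ Pts R (none' O υ) Q | ∃ t, aeval y (T t) ≠ 0}.Finite) ∧
      (AllLG K (none' O υ) Q ↔ AllLG K f g) ∧ (LV K (none' O υ) Q ↔ LV K f g) := by
  classical
  have : Fintype (ι ⊕ κ) := Fintype.ofFinite _
  obtain ⟨d, hd, hf⟩ : ∃ d, 4 ≤ d ∧ ∀ i, (fi f g i).totalDegree ≤ d :=
    ⟨max 4 (Finset.univ.sup fun i => (fi f g i).totalDegree), le_max_left _ _, fun i =>
      (Finset.le_sup (f := fun i => (fi f g i).totalDegree) (Finset.mem_univ i)).trans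
        (le_max_right _ _)⟩
  obtain ⟨B, hB⟩ := Pool.Agent.U180.SQ.exists_comb (O := O) (υ := Mon (σ ⊕ κ) d) rfl
    (tt (fi f g) d)
  set S := comb B (tt (fi f g) d) with hS
  obtain ⟨A, hA, hnc⟩ := exists_normal (L := 2 * Nat.card (Mon (σ ⊕ κ) d)) K S
  have hmem : ∀ l, member S A l - 1 ∈ Ideal.span (Set.range (eqs (fi f g) d)) :=
    member_ideal (fun j => Ideal.sum_mem _ fun i _ => Ideal.mul_mem_left _ _
      (Ideal.subset_span (Set.mem_range_self (enum _ _ d i)))) A
  have himg : IsImage f g (eqs (fi f g) d) fun j => co d hd (Sum.inl j) := fun R _ _ =>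
    (pts_inv f g).comp (image hd hf R)
  have hlg : AllLG K (none' O _) (member S A) ↔ AllLG K f g :=
    (lg_iff hd hf hmem fun E _ _ _ _ y w hg hoff hw htr =>
      lg_off hd hB hA hK hg hoff hw htr).trans (lg_inv f g)
  refine ⟨Mon (σ ⊕ κ) d, TI (ι ⊕ κ) (σ ⊕ κ) d, inferInstance, inferInstance, member S A,
    eqs (fi f g) d, fun j => co d hd (Sum.inl j), member_deg (comb_deg _ _ _) A, hnc, eqs_deg _ _,
    hmem, himg, fun E _ _ _ _ y w hg hoff hw htr => lg_off hd hB hA hK hg hoff hw htr,
    fun R _ _ _ _ _ hR => pts_off hd hB hA R hR, hlg, fun h h0 => ?_, fun h h0 => ?_⟩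
  · have h1 := h (hlg.2 h0)
    have h2 : (Pts O (eqs (fi f g) d) (none' O _)).Finite := by
      refine h1.subset fun y hy => ⟨fun e => e.elim, fun l => ?_⟩
      rw [one_of_mem hmem hy.1]
      exact isUnit_one
    exact ((himg O).image_eq ▸ h2.image _)
  · have h1 := h (hlg.1 h0)
    rw [← (himg O).image_eq] at h1
    have h2 : (Pts O (eqs (fi f g) d) (none' O _)).Finite := h1.of_finite_image (himg O).injOn
    refine (h2.union (pts_off (f := fi f g) hd hB hA O Function.injective_id)).subset
      fun y hy => ?_
    by_cases hoff : ∃ t, aeval y (eqs (fi f g) d t) ≠ 0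
    · exact Or.inr ⟨hy, hoff⟩
    · push Not at hoff
      exact Or.inl ⟨hoff, fun e => e.elim⟩

/-- **Main theorem.** `O` is a finitely generated domain of characteristic zero and `K` is an
algebraically closed field which contains `O`.

(1) Let `U = {f = 0, g ≠ 0}` be an affine scheme of finite type over `O`. There are a number
`N = Nat.card υ`, finitely many polynomials `T_t` and `2 N` polynomials `Q_l` of degree at most two in
`N` variables over `O` such that: `U` is isomorphic to the closed subscheme `{T = 0}` of `𝔸 ^ N`; all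
`Q_l` are equal to one on it, so it is a closed subscheme of the complement `X` of the quadrics
`Q_l = 0`; over `K` these quadrics are smooth and cross normally in `𝔸 ^ N`; all subvarieties of `X` over
`K` of positive dimension which are not contained in `U` are of log general type; for all finitely
generated domains `R` which contain `O` the set of points of `X` over `R` which are not in `U` is
finite. So all subvarieties of `X` are of log general type if and only if this holds for `U`, and the
conjecture (Q1) for `X` is equivalent to the conjecture for `U`.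

(2) The conjecture holds for all affine schemes of finite type over `O` if and only if it holds for the
complements of `2 N` quadrics in `𝔸 ^ N` which are smooth and cross normally over `K`, for all `N`. -/
theorem result {O : Type} [CommRing O] [IsDomain O] [CharZero O] [Algebra.FiniteType ℤ O]
    {K : Type} [Field K] [IsAlgClosed K] [CharZero K] [Algebra O K]
    (hK : Function.Injective (algebraMap O K)) :
    (∀ (σ ι κ : Type) [Finite σ] [Finite ι] [Finite κ] (f : ι → MvPolynomial σ O)
        (g : κ → MvPolynomial σ O),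
      ∃ (υ θ : Type) (_ : Finite υ) (_ : Finite θ) (Q : Fin (2 * Nat.card υ) → MvPolynomial υ O)
        (T : θ → MvPolynomial υ O) (c : σ → υ),
        (∀ l, (Q l).totalDegree ≤ 2) ∧ NormalCrossings K Q ∧ (∀ t, (T t).totalDegree ≤ 2) ∧
        (∀ l, Q l - 1 ∈ Ideal.span (Set.range T)) ∧ IsImage f g T c ∧
        (∀ (E : Type) [Field E] [Algebra O E] [Algebra K E] [IsScalarTower O K E] (y : υ → E)
          (w : ℕ), GenPt K (none' O υ) Q y → (∃ t, aeval y (T t) ≠ 0) → 0 < w →
          Algebra.trdeg K E = w → LogGeneralType K E w (NoCentre Q y)) ∧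
        (∀ (R : Type) [CommRing R] [IsDomain R] [CharZero R] [Algebra.FiniteType ℤ R]
          [Algebra O R], Function.Injective (algebraMap O R) →
          {y ∈ Pts R (none' O υ) Q | ∃ t, aeval y (T t) ≠ 0}.Finite) ∧
        (AllLG K (none' O υ) Q ↔ AllLG K f g) ∧ (LV K (none' O υ) Q ↔ LV K f g)) ∧
    ((∀ (σ ι κ : Type) [Finite σ] [Finite ι] [Finite κ] (f : ι → MvPolynomial σ O)
        (g : κ → MvPolynomial σ O), LV K f g) ↔
      ∀ (υ : Type) [Finite υ] (Q : Fin (2 * Nat.card υ) → MvPolynomial υ O),
        (∀ l, (Q l).totalDegree ≤ 2) → NormalCrossings K Q → LV K (none' O υ) Q) := by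
  refine ⟨fun σ ι κ _ _ _ f g => embed hK f g, fun h υ _ Q _ _ => h υ Empty _ _ Q,
    fun h σ ι κ _ _ _ f g => ?_⟩
  obtain ⟨υ, θ, _, _, Q, T, c, hQ, hnc, -, -, -, -, -, -, hLV⟩ := embed (K := K) hK f g
  exact hLV.1 (h υ Q hQ hnc)

end Pool.Agent.Results.MP_26d9ad_nt.SmoothQuadrics
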