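import Pool.Agent.U582.GN.Fin

/-!
MP_26d9ad_nt, Q1: integral points on the complements of at least `n + 2` Zariski-general hypersurface
sections of an arbitrary projective variety of dimension `n`, and on all their strata: finiteness
over all finitely generated rings, with a bound which does not depend on the hypersurfaces.

Let `k` be a field contained in `ℂ`, and let `V` be a closed subset of projective space, given by
forms over `k`, of dimension at most `n`. Let `q ≥ n + 2`, and let `d_1, …, d_q` be positive integers,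
such that at most `2 (q - n - 1)` of them are equal to `1` (for `q = n + 2`: at most two of them), or
such that for `1 ≤ m ≤ n` the sum of any `q - 1 - m` of them is at least `n - m + n / m`.

THEOREM. There is a nonzero polynomial `Φ`, with coefficients in `k`, in the coefficients of `q` forms
of degrees `d_1, …, d_q`, with the following properties. For complex forms `F = (F_1, …, F_q)` of
degrees `d_1, …, d_q` with `Φ (F) ≠ 0` and a proper subset `C` of the indices (for instance the empty
set) let `U_C` be the set of the points of `V` with `F_c = 0` for `c ∈ C` and `F_b ≠ 0` for `b ∉ C`.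
(1) For all `F` with `Φ (F) ≠ 0`, all finitely generated subrings `R` of `ℂ` and all `C` there are
only finitely many `R`-points of `U_C`.
(2) For every finitely generated subring `R` of `ℂ` there is a number `N` such that for all `F` with
coefficients in `R` and `Φ (F) ≠ 0`, and all `C`, there are at most `N` points of `U_C` over `R`.
(3) For every finitely generated subgroup `Γ` of `ℂˣ` there is a number `N` such that for all complex
`F` with `Φ (F) ≠ 0`, and all `C`, there are at most `N` points of `U_C` at which all the quotients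
`F_b ^ d_a / F_a ^ d_b`, `a, b ∉ C`, are in `Γ`.

All finitely generated domains of characteristic zero are isomorphic to such rings `R`. The points of
`U_C` over `R` are the points at which all quotients of the monomials of degree `∑ d_b`, `b ∉ C`, by
the product of the `F_b`, `b ∉ C`, are in `R`.

So the conclusion of the conjecture of Lang and Vojta holds for Zariski-general hypersurfaces, not
only for those with algebraically independent coefficients: the `F_b` can have coefficients in a
number field, and the exceptional `F` are zeros of one polynomial `Φ`, for all rings `R`. The numbers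
of the points are bounded in terms of `R` only.

Proof. The quotients of the powers of the `F_b` are units. In a limit of more and more points for
varying coefficients (over the ultrapower of the ultrapower of `ℂ`) they satisfy only trivial
relations, by the unit equation for the ultrapower of a finitely generated group with arbitrary
coefficients in the ultrapower of the field (`Pool.Agent.U582.GN.ueu`, `Pool.Agent.U582.GN.stu`). By
the theorems of the project GN of the starting library (`Pool.Agent.NH29.GN`) there is no such point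
if the coefficients are algebraically independent over `k`, by means of derivations, and therefore
none off a proper closed subset.
-/

set_option autoImplicit false

namespace Pool.Agent.Results.MP_26d9ad_nt.UniformGeneralComponents

open MvPolynomial
open scoped LinearAlgebra.Projectivization

variable {k : Type} [Field k] {M q : ℕ}

/-- The closed subset of the projective space of dimension `M` given by the forms in `V` has
dimension at most `n`: there are `n + 1` linear forms without common zero on it. -/
def DimLE (V : Set (MvPolynomial (Fin (M + 1)) k)) (n : ℕ) : Prop :=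
  ∃ ℓ : Fin (n + 1) → MvPolynomial (Fin (M + 1)) k, (∀ j, (ℓ j).IsHomogeneous 1) ∧
    ∀ y : Fin (M + 1) → AlgebraicClosure k,
      (∀ H ∈ V, aeval y H = 0) → (∀ j, aeval y (ℓ j) = 0) → y = 0

/-- The indices of the coefficients of `q` forms of degrees `d i` in `M + 1` variables. -/
abbrev Index (M : ℕ) {q : ℕ} (d : Fin q → ℕ) : Type :=
  (i : Fin q) × {β : Fin (M + 1) →₀ ℕ // β.degree = d i}

/-- `F` is a family of forms of degrees `d i`, and `Φ (F) ≠ 0`. -/
def General [Algebra k ℂ] {d : Fin q → ℕ} (Φ : MvPolynomial (Index M d) k)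
    (F : Fin q → MvPolynomial (Fin (M + 1)) ℂ) : Prop :=
  (∀ i, (F i).IsHomogeneous (d i)) ∧ aeval (fun s : Index M d => coeff s.2.1 (F s.1)) Φ ≠ 0

/-- The points over `R` of the part `F c = 0`, `c ∈ C`, `F b ≠ 0`, `b ∉ C`, of `V`. -/
def Points [Algebra k ℂ] (V : Set (MvPolynomial (Fin (M + 1)) k)) (d : Fin q → ℕ)
    (F : Fin q → MvPolynomial (Fin (M + 1)) ℂ) (C : Finset (Fin q)) (R : Subring ℂ) :
    Set (ℙ ℂ (Fin (M + 1) → ℂ)) :=
  {P | (∀ H ∈ V, aeval P.rep H = 0) ∧ (∀ c ∈ C, eval P.rep (F c) = 0) ∧
    (∀ b, b ∉ C → eval P.rep (F b) ≠ 0) ∧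
    ∀ α : Fin (M + 1) →₀ ℕ, α.degree = ∑ b ∈ Cᶜ, d b →
      (∏ i, P.rep i ^ α i) / ∏ b ∈ Cᶜ, eval P.rep (F b) ∈ R}

/-- The points of the part `F c = 0`, `c ∈ C`, `F b ≠ 0`, `b ∉ C`, of `V`, at which the quotients
`F b ^ d a / F a ^ d b`, `a, b ∉ C`, are in `Γ`. -/
def UnitPoints [Algebra k ℂ] (V : Set (MvPolynomial (Fin (M + 1)) k)) (d : Fin q → ℕ)
    (F : Fin q → MvPolynomial (Fin (M + 1)) ℂ) (C : Finset (Fin q)) (Γ : Subgroup ℂˣ) :
    Set (ℙ ℂ (Fin (M + 1) → ℂ)) :=
  {P | (∀ H ∈ V, aeval P.rep H = 0) ∧ (∀ c ∈ C, eval P.rep (F c) = 0) ∧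
    (∀ b, b ∉ C → eval P.rep (F b) ≠ 0) ∧
    ∀ b a, b ∉ C → a ∉ C → ∃ γ ∈ Γ, eval P.rep (F b) ^ d a / eval P.rep (F a) ^ d b = (γ : ℂ)}

/-- `R` is a finitely generated ring. -/
def FinitelyGenerated (R : Subring ℂ) : Prop := ∃ T : Set ℂ, T.Finite ∧ R = Subring.closure T

theorem result [Algebra k ℂ] {n : ℕ}
    -- the variety
    (V : Set (MvPolynomial (Fin (M + 1)) k)) (hV : ∀ H ∈ V, ∃ e, H.IsHomogeneous e)
    (hn : DimLE V n)
    -- the degrees
    (d : Fin q → ℕ) (hd : ∀ b, 0 < d b) (hq : n + 2 ≤ q)
    (h : (Finset.univ.filter fun b => d b = 1).card + 2 ≤ 2 * (q - n) ∨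
      ∀ m, 1 ≤ m → m ≤ n → ∀ B : Finset (Fin q), B.card + m + 1 = q →
        n + m * (n - m) ≤ m * ∑ b ∈ B, d b) :
    ∃ Φ : MvPolynomial (Index M d) k, Φ ≠ 0 ∧
      -- (1)
      (∀ F : Fin q → MvPolynomial (Fin (M + 1)) ℂ, General Φ F →
        ∀ R : Subring ℂ, FinitelyGenerated R → ∀ C : Finset (Fin q), C ≠ Finset.univ →
          (Points V d F C R).Finite) ∧
      -- (2)
      (∀ R : Subring ℂ, FinitelyGenerated R → ∃ N : ℕ,
        ∀ F : Fin q → MvPolynomial (Fin (M + 1)) ℂ, General Φ F → (∀ b β, coeff β (F b) ∈ R) →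
          ∀ C : Finset (Fin q), C ≠ Finset.univ → (Points V d F C R).encard ≤ N) ∧
      -- (3)
      ∀ Γ : Subgroup ℂˣ, Γ.FG → ∃ N : ℕ,
        ∀ F : Fin q → MvPolynomial (Fin (M + 1)) ℂ, General Φ F →
          ∀ C : Finset (Fin q), C ≠ Finset.univ → (UnitPoints V d F C Γ).encard ≤ N := by
  classical
  have hk : CharZero k := (algebraMap k ℂ).charZero
  obtain ⟨ℓ, hℓ, hℓ0⟩ := hn
  have hNum : ∀ C : Finset (Fin q), C ≠ Finset.univ → Pool.Agent.NH29.GN.Num2 n d C := by
    intro C hC
    rcases h with h | h
    · exact Pool.Agent.NH29.GN.Fn.num_of_few hd hq h C hC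
    · exact Pool.Agent.NH29.GN.Fn.num_of_sum hq h C hC
  obtain ⟨Φ, hΦ, h1⟩ := Pool.Agent.U582.GN.main hV hℓ
    (Pool.Agent.NH29.GN.Fn.noZero_of_points hℓ0) (by omega) hd hNum
  have h2 : ∀ R : Subring ℂ, FinitelyGenerated R → ∃ N : ℕ,
      ∀ F : Fin q → MvPolynomial (Fin (M + 1)) ℂ, General Φ F → (∀ b β, coeff β (F b) ∈ R) →
        ∀ C : Finset (Fin q), C ≠ Finset.univ → (Points V d F C R).encard ≤ N := by
    rintro R ⟨T, hT, rfl⟩
    obtain ⟨Γ, hΓ, hΓT⟩ := Pool.Agent.U582.GN.ru T hT
    obtain ⟨N, hN⟩ := h1 Γ hΓ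
    refine ⟨N, fun F hF hFR C hC => le_trans (Set.encard_le_encard ?_) (hN F hF.1 hF.2 C hC)⟩
    exact Pool.Agent.U582.GN.pts_sub hΓT hF.1 hFR C
  refine ⟨Φ, hΦ, ?_, h2, fun Γ hΓ => ?_⟩
  · rintro F hF R ⟨T, hT, rfl⟩ C hC
    set T' : Set ℂ := T ∪ ⋃ b, (fun β => coeff β (F b)) '' ((F b).support : Set _) with hT'
    have hT'f : T'.Finite :=
      hT.union (Set.finite_iUnion fun b => (F b).support.finite_toSet.image _)
    obtain ⟨N, hN⟩ := h2 (Subring.closure T') ⟨T', hT'f, rfl⟩
    have hcoef : ∀ b β, coeff β (F b) ∈ Subring.closure T' := by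
      intro b β
      by_cases hβ : β ∈ (F b).support
      · exact Subring.subset_closure (Or.inr (Set.mem_iUnion.2 ⟨b, β, hβ, rfl⟩))
      · rw [notMem_support_iff.1 hβ]
        exact Subring.zero_mem _
    have h3 := hN F hF hcoef C hC
    have h4 : (Points V d F C (Subring.closure T')).Finite :=
      Set.finite_of_encard_le_coe h3
    refine h4.subset ?_
    rintro P ⟨hP1, hP2, hP3, hP4⟩
    exact ⟨hP1, hP2, hP3, fun α hα => Subring.closure_mono Set.subset_union_left (hP4 α hα)⟩
  · obtain ⟨N, hN⟩ := h1 Γ hΓ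
    exact ⟨N, fun F hF C hC => hN F hF.1 hF.2 C hC⟩

end Pool.Agent.Results.MP_26d9ad_nt.UniformGeneralComponents
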